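import Pool.Agent.Helper77.SUBK.SheetK

/-! Project SUBK, row DEN: denominators of S-integers and finiteness. -/

set_option autoImplicit false

namespace Pool.Agent.Helper89.SUBK

open Finset Matrix
open Pool.Agent.Helper70.SUB Pool.Agent.Helper77.SUBK

theorem den_nat (S : Finset ℕ) (hS : ∀ p ∈ S, p.Prime) (R : ℝ) (hR : 1 ≤ R) :
    ∃ e : ℕ → ℕ, (∀ p ∈ S, R < (p : ℝ) ^ (e p + 1) ∧ (p : ℝ) ^ e p ≤ R) ∧
      Sm S (∏ p ∈ S, p ^ (e p + 1)) ∧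
      ((∏ p ∈ S, p ^ (e p + 1) : ℕ) : ℝ) ≤ (∏ p ∈ S, (p : ℝ)) * R ^ S.card := by
  have h : ∀ p : ℕ, ∃ e : ℕ, p ∈ S → R < (p : ℝ) ^ (e + 1) ∧ (p : ℝ) ^ e ≤ R := by
    intro p
    by_cases hp : p ∈ S
    · obtain ⟨e, h1, h2⟩ := exists_nat_pow_near hR
        (show (1 : ℝ) < (p : ℝ) by exact_mod_cast (hS p hp).one_lt)
      exact ⟨e, fun _ => ⟨h2, h1⟩⟩
    · exact ⟨0, fun h => absurd h hp⟩
  choose e he using h
  refine ⟨e, fun p hp => he p hp, ⟨?_, fun q hq hd => ?_⟩, ?_⟩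
  · exact Finset.prod_ne_zero_iff.2 fun p hp => pow_ne_zero _ (hS p hp).ne_zero
  · obtain ⟨p, hp, hd'⟩ := (hq.prime.dvd_finsetProd_iff _).1 hd
    have h1 : q ∣ p := hq.dvd_of_dvd_pow hd'
    rw [(Nat.prime_dvd_prime_iff_eq hq (hS p hp)).1 h1]
    exact hp
  · push_cast
    calc ∏ p ∈ S, (p : ℝ) ^ (e p + 1) ≤ ∏ p ∈ S, ((p : ℝ) * R) := by
          refine Finset.prod_le_prod (fun p _ => by positivity) fun p hp => ?_
          rw [pow_succ, mul_comm]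
          exact mul_le_mul_of_nonneg_left (he p hp).2 (Nat.cast_nonneg p)
      _ = (∏ p ∈ S, (p : ℝ)) * R ^ S.card := by
          rw [Finset.prod_mul_distrib, Finset.prod_const]

theorem av_self {p : ℕ} (hp : p.Prime) : av (some p) (p : ℚ) = (p : ℝ)⁻¹ := by
  have : Fact p.Prime := ⟨hp⟩
  show ((padicNorm p (p : ℚ) : ℚ) : ℝ) = _
  rw [padicNorm.padicNorm_p_of_prime]
  push_cast
  rfl

section aux

variable {M : Type} [Field M] [NumberField M] {S : Finset ℕ}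

theorem nv_den (hAV : ST_AV) (P : PF S M) (hS : ∀ p ∈ S, p.Prime) (e : ℕ → ℕ) {p : ℕ}
    (hp : p ∈ S) : P.nv (some p) ((∏ q ∈ S, q ^ (e q + 1) : ℕ) : M) ≤ ((p : ℝ) ^ (e p + 1))⁻¹ := by
  have hv := mem_some hp
  rw [← Finset.mul_prod_erase S (fun q => q ^ (e q + 1)) hp, Nat.cast_mul, Nat.cast_pow,
    P.mul _ hv, P.pow hv, P.natCast hv, av_self (hS p hp)]
  have h1 : P.nv (some p) ((∏ q ∈ S.erase p, q ^ (e q + 1) : ℕ) : M) ≤ 1 := by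
    have := P.int_le hAV hS hp ((∏ q ∈ S.erase p, q ^ (e q + 1) : ℕ) : ℤ)
    rwa [Int.cast_natCast] at this
  rw [inv_pow]
  calc ((p : ℝ) ^ (e p + 1))⁻¹ * P.nv (some p) ((∏ q ∈ S.erase p, q ^ (e q + 1) : ℕ) : M)
      ≤ ((p : ℝ) ^ (e p + 1))⁻¹ * 1 := mul_le_mul_of_nonneg_left h1 (by positivity)
    _ = _ := mul_one _

theorem si_nat_mul {z : M} (n : ℕ) (h : SI S z) : SI S ((n : M) * z) := by
  obtain ⟨m, hm, hi⟩ := h
  refine ⟨m, hm, ?_⟩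
  have h1 : (m : M) * ((n : M) * z) = (n : M) * ((m : M) * z) := by ring
  rw [h1]
  have h2 : IsIntegral ℤ (n : M) := by
    have := isIntegral_algebraMap (R := ℤ) (A := M) (x := (n : ℤ))
    simpa using this
  exact h2.mul hi

end aux

/-- DEN -/
theorem DEN (hAV : ST_AV) (hG : ST_GALA) (hI : ST_INTG) : ST_DEN := by
  intro M _ _ _ S P hS
  have part1 : ∀ R : ℝ, 1 ≤ R → ∃ n : ℕ, Sm S n ∧ (n : ℝ) ≤ (∏ p ∈ S, (p : ℝ)) * R ^ S.card ∧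
      ∀ z : M, SI S z → (∀ p ∈ S, ∀ σ : M ≃ₐ[ℚ] M, P.nv (some p) (σ z) ≤ R) →
        IsIntegral ℤ ((n : M) * z) := by
    intro R hR
    obtain ⟨e, he, hsm, hle⟩ := den_nat S hS R hR
    refine ⟨_, hsm, hle, fun z hz hzR => hI M S P hS _ (si_nat_mul _ hz) fun p hp σ => ?_⟩
    have hv := mem_some hp
    rw [map_mul, map_natCast, P.mul _ hv]
    have h1 := nv_den (M := M) hAV P hS e hp
    have h2 := hzR p hp σ
    have h3 := (he p hp).1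
    have hp0 : (0 : ℝ) < (p : ℝ) ^ (e p + 1) := lt_trans (zero_lt_one.trans_le hR) h3
    calc P.nv (some p) ((∏ q ∈ S, q ^ (e q + 1) : ℕ) : M) * P.nv (some p) (σ z)
        ≤ ((p : ℝ) ^ (e p + 1))⁻¹ * R :=
          mul_le_mul h1 h2 (P.nn _ _) (inv_nonneg.2 hp0.le)
      _ ≤ ((p : ℝ) ^ (e p + 1))⁻¹ * (p : ℝ) ^ (e p + 1) :=
          mul_le_mul_of_nonneg_left h3.le (inv_nonneg.2 hp0.le)
      _ = 1 := inv_mul_cancel₀ hp0.ne'
  refine ⟨part1, fun H => ?_⟩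
  obtain ⟨R, hR⟩ : ∃ R : ℝ, R = max H 1 := ⟨_, rfl⟩
  obtain ⟨n, hn, -, hint⟩ := part1 R (by rw [hR]; exact le_max_right _ _)
  obtain ⟨-, -, hfin⟩ := hG M S P hS
  have hn0 : (n : M) ≠ 0 := by exact_mod_cast hn.1
  have h1 := (hfin ((n : ℝ) * R)).preimage (f := fun z : M => (n : M) * z)
    (fun x _ y _ h => mul_left_cancel₀ hn0 h)
  refine h1.subset fun z hz => ?_
  have hz1 : ∀ v ∈ plc S, ∀ σ : M ≃ₐ[ℚ] M, P.nv v (σ z) ≤ R := fun v hv σ =>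
    (hz.2 v hv σ).trans (by rw [hR]; exact le_max_left _ _)
  refine ⟨hint z hz.1 fun p hp σ => hz1 _ (mem_some hp) σ, fun σ => ?_⟩
  show P.nv none (σ ((n : M) * z)) ≤ (n : ℝ) * R
  rw [map_mul, map_natCast, P.mul _ mem_none, P.natCast mem_none]
  have h2 : av none (n : ℚ) = (n : ℝ) := by
    show |(((n : ℚ)) : ℝ)| = (n : ℝ)
    push_cast
    exact abs_of_nonneg (Nat.cast_nonneg n)
  rw [h2]
  exact mul_le_mul_of_nonneg_left (hz1 _ mem_none σ) (Nat.cast_nonneg n)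

end Pool.Agent.Helper89.SUBK
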