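import Pool.Agent.Helper77.SUBK.SheetK

/-! Project SUBK, row PRK: the product formula for S-integers and S-units. -/

set_option autoImplicit false

namespace Pool.Agent.Helper89.SUBK

open Finset Matrix
open Pool.Agent.Helper70.SUB Pool.Agent.Helper77.SUBK

section aux

variable {M : Type} [Field M] [NumberField M] {S : Finset ℕ}

theorem sm_prod (hAV : ST_AV) (hS : ∀ p ∈ S, p.Prime) {n : ℕ} (hn : Sm S n) :
    ∏ v ∈ plc S, av v ((n : ℚ)) = 1 := by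
  obtain ⟨-, -, -, -, -, -, -, avS, -⟩ := hAV.2.2 S hS
  have h := avS (n : ℤ) (by exact_mod_cast hn.1) (fun q hq h => hn.2 q hq (by exact_mod_cast h))
  simpa using h

/-- products over all the places with multiplicity -/
theorem prod_nat (hAV : ST_AV) (P : PF S M) (hS : ∀ p ∈ S, p.Prime) {n : ℕ} (hn : Sm S n) :
    ∏ v ∈ plc S, ∏ _σ : M ≃ₐ[ℚ] M, P.nv v (n : M) = 1 := by
  simp only [Finset.prod_const]
  rw [Finset.prod_pow]
  have h : ∏ v ∈ plc S, P.nv v (n : M) = 1 := by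
    rw [← sm_prod hAV hS hn]
    exact Finset.prod_congr rfl fun v hv => P.natCast hv n
  rw [h, one_pow]

theorem prod_pos (P : PF S M) {z : M} (hz : z ≠ 0) :
    0 < ∏ v ∈ plc S, ∏ σ : M ≃ₐ[ℚ] M, P.nv v (σ z) :=
  Finset.prod_pos fun v hv => Finset.prod_pos fun σ _ => P.pos v hv _ (by
    intro h
    exact hz ((map_eq_zero_iff σ σ.injective).1 h))

theorem prod_mul (P : PF S M) (z z' : M) :
    ∏ v ∈ plc S, ∏ σ : M ≃ₐ[ℚ] M, P.nv v (σ (z * z')) =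
      (∏ v ∈ plc S, ∏ σ : M ≃ₐ[ℚ] M, P.nv v (σ z)) *
        ∏ v ∈ plc S, ∏ σ : M ≃ₐ[ℚ] M, P.nv v (σ z') := by
  rw [← Finset.prod_mul_distrib]
  refine Finset.prod_congr rfl fun v hv => ?_
  rw [← Finset.prod_mul_distrib]
  refine Finset.prod_congr rfl fun σ _ => ?_
  rw [map_mul, P.mul v hv]

theorem si_prod (hAV : ST_AV) (hG : ST_GALA) [IsGalois ℚ M] (P : PF S M)
    (hS : ∀ p ∈ S, p.Prime) {z : M} (hz : z ≠ 0) (h : SI S z) :
    1 ≤ ∏ v ∈ plc S, ∏ σ : M ≃ₐ[ℚ] M, P.nv v (σ z) := by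
  obtain ⟨n, hn, hi⟩ := h
  obtain ⟨-, -, -, -, -, -, av1, -, -⟩ := hAV.2.2 S hS
  obtain ⟨-, g2, -⟩ := hG M S P hS
  have hn0 : (n : M) ≠ 0 := by exact_mod_cast hn.1
  have h1 : ∏ v ∈ plc S, ∏ σ : M ≃ₐ[ℚ] M, P.nv v (σ ((n : M) * z)) =
      ∏ v ∈ plc S, ∏ σ : M ≃ₐ[ℚ] M, P.nv v (σ z) := by
    rw [prod_mul]
    have h2 : ∏ v ∈ plc S, ∏ σ : M ≃ₐ[ℚ] M, P.nv v (σ (n : M)) = 1 := by
      rw [← prod_nat (M := M) hAV P hS hn]
      refine Finset.prod_congr rfl fun v _ => Finset.prod_congr rfl fun σ _ => ?_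
      rw [map_natCast]
    rw [h2, one_mul]
  rw [← h1]
  have h3 : IsIntegral ℤ (Algebra.norm ℚ ((n : M) * z)) := Algebra.isIntegral_norm ℚ hi
  obtain ⟨k, hk⟩ := IsIntegrallyClosed.isIntegral_iff.1 h3
  have hk' : ((k : ℤ) : ℚ) = Algebra.norm ℚ ((n : M) * z) := by
    rw [← hk]
    simp
  have hk0 : k ≠ 0 := by
    intro h
    rw [h, Int.cast_zero] at hk'
    exact mul_ne_zero hn0 hz (Algebra.norm_eq_zero_iff.1 hk'.symm)
  have h4 : ∏ v ∈ plc S, ∏ σ : M ≃ₐ[ℚ] M, P.nv v (σ ((n : M) * z)) =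
      ∏ v ∈ plc S, av v ((k : ℤ) : ℚ) :=
    Finset.prod_congr rfl fun v hv => by rw [g2 v hv, hk']
  rw [h4]
  exact av1 k hk0

theorem sv_prod (hAV : ST_AV) (hG : ST_GALA) [IsGalois ℚ M] (P : PF S M)
    (hS : ∀ p ∈ S, p.Prime) {z : M} (h : SV S z) :
    ∏ v ∈ plc S, ∏ σ : M ≃ₐ[ℚ] M, P.nv v (σ z) = 1 := by
  obtain ⟨h0, h1, h2⟩ := h
  have a1 := si_prod hAV hG P hS h0 h1
  have a2 := si_prod hAV hG P hS (inv_ne_zero h0) h2
  have a3 : (∏ v ∈ plc S, ∏ σ : M ≃ₐ[ℚ] M, P.nv v (σ z)) *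
      ∏ v ∈ plc S, ∏ σ : M ≃ₐ[ℚ] M, P.nv v (σ z⁻¹) = 1 := by
    rw [← prod_mul, mul_inv_cancel₀ h0]
    refine Finset.prod_eq_one fun v hv => Finset.prod_eq_one fun σ _ => ?_
    rw [map_one, P.one hv]
  refine le_antisymm ?_ a1
  calc ∏ v ∈ plc S, ∏ σ : M ≃ₐ[ℚ] M, P.nv v (σ z)
      = (∏ v ∈ plc S, ∏ σ : M ≃ₐ[ℚ] M, P.nv v (σ z)) * 1 := (mul_one _).symm
    _ ≤ _ := mul_le_mul_of_nonneg_left a2 (zero_le_one.trans a1)
    _ = 1 := a3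

/-- factors at most `H` with product `1` -/
theorem fac_bd {α : Type} [DecidableEq α] (T : Finset α) (f : α → ℝ) (H : ℝ)
    (h0 : ∀ x ∈ T, 0 < f x) (h1 : ∀ x ∈ T, f x ≤ H) (hp : ∏ x ∈ T, f x = 1)
    (hT : T.Nonempty) : 1 ≤ H ∧ ∀ x ∈ T, (f x)⁻¹ ≤ H ^ T.card := by
  obtain ⟨x0, hx0⟩ := hT
  have hH0 : 0 ≤ H := (h0 x0 hx0).le.trans (h1 x0 hx0)
  have hH : 1 ≤ H := by
    by_contra hlt
    push Not at hlt
    have h2 : ∏ x ∈ T, f x ≤ H ^ T.card := by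
      rw [← Finset.prod_const]
      exact Finset.prod_le_prod (fun x hx => (h0 x hx).le) h1
    have h3 : H ^ T.card < 1 := pow_lt_one₀ hH0 hlt (Finset.card_ne_zero.2 ⟨x0, hx0⟩)
    rw [hp] at h2
    linarith
  refine ⟨hH, fun x hx => ?_⟩
  have h4 : f x * ∏ y ∈ T.erase x, f y = 1 := by
    rw [Finset.mul_prod_erase T f hx, hp]
  have h5 : (f x)⁻¹ = ∏ y ∈ T.erase x, f y := (eq_inv_of_mul_eq_one_right h4).symm
  rw [h5]
  calc ∏ y ∈ T.erase x, f y ≤ ∏ _y ∈ T.erase x, H :=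
        Finset.prod_le_prod (fun y hy => (h0 y (Finset.mem_of_mem_erase hy)).le)
          fun y hy => h1 y (Finset.mem_of_mem_erase hy)
    _ = H ^ (T.erase x).card := Finset.prod_const _
    _ ≤ H ^ T.card := pow_le_pow_right₀ hH (Finset.card_le_card (Finset.erase_subset _ _))

end aux

/-- PRK -/
theorem PRK (hAV : ST_AV) (hG : ST_GALA) : ST_PRK := by
  classical
  intro M _ _ _ S P hS
  refine ⟨fun z hz h => si_prod hAV hG P hS hz h, fun z h => sv_prod hAV hG P hS h,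
    fun z H h hH => ?_⟩
  have h1 := sv_prod hAV hG P hS h
  rw [← Finset.prod_product'] at h1
  have hz : ∀ σ : M ≃ₐ[ℚ] M, σ z ≠ 0 := fun σ h' =>
    h.1 ((map_eq_zero_iff σ σ.injective).1 h')
  obtain ⟨h2, h3⟩ := fac_bd (plc S ×ˢ (univ : Finset (M ≃ₐ[ℚ] M)))
    (fun x => P.nv x.1 (x.2 z)) H
    (fun x hx => P.pos x.1 (Finset.mem_product.1 hx).1 _ (hz _))
    (fun x hx => hH x.1 (Finset.mem_product.1 hx).1 x.2) h1
    ⟨(none, 1), Finset.mem_product.2 ⟨mem_none, Finset.mem_univ _⟩⟩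
  refine ⟨h2, fun v hv σ => ?_⟩
  rw [map_inv₀, P.inv hv]
  have h4 := h3 (v, σ) (Finset.mem_product.2 ⟨hv, Finset.mem_univ _⟩)
  rw [Finset.card_product, Finset.card_univ] at h4
  exact h4

end Pool.Agent.Helper89.SUBK
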