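import Pool.Agent.Helper77.SUBK.SheetK
import Pool.Agent.Helper89.SUB.Rel

/-! Project SUBK, row RELK: a linear relation with nonzero coefficients between S-units of a
Galois number field makes two of them proportional on an infinite set. -/

set_option autoImplicit false

namespace Pool.Agent.Helper89.SUBK

open Finset Matrix
open Pool.Agent.Helper70.SUB Pool.Agent.Helper77.SUBK
open Pool.Agent.Helper89.SUB (pig)

/-- the forms: the coordinates `1 .. n` and the form `0` (with coefficients `w`), without the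
form `i0` -/
def frK {M : Type} [Field M] {n : ℕ} (i0 : Fin (n + 1)) (w : Fin n → M) :
    Matrix (Fin n) (Fin n) M :=
  Matrix.of fun k l => if k.succ = i0 then w l else if k = l then 1 else 0

theorem frK_mul {M : Type} [Field M] {n : ℕ} (i0 : Fin (n + 1)) (w y : Fin n → M) (k : Fin n) :
    (frK i0 w).mulVec y k = if k.succ = i0 then ∑ l, w l * y l else y k := by
  by_cases h : k.succ = i0
  · simp [frK, Matrix.mulVec, dotProduct, h]
  · simp [frK, Matrix.mulVec, dotProduct, h]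

theorem frK_det {M : Type} [Field M] {n : ℕ} (i0 : Fin (n + 1)) (w : Fin n → M)
    (hw : ∀ k, w k ≠ 0) : (frK i0 w).det ≠ 0 := by
  intro h
  obtain ⟨y, hy0, hy⟩ := Matrix.exists_mulVec_eq_zero_iff.2 h
  apply hy0
  have h1 : ∀ k : Fin n, k.succ ≠ i0 → y k = 0 := fun k hk => by
    have h2 := frK_mul i0 w y k
    rw [if_neg hk, hy] at h2
    exact h2.symm
  funext k
  by_cases hk : k.succ = i0
  · have h2 := frK_mul i0 w y k
    rw [if_pos hk, hy] at h2
    have h3 : ∑ l, w l * y l = w k * y k := by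
      refine Finset.sum_eq_single k (fun l _ hl => ?_) (fun hk => absurd (Finset.mem_univ _) hk)
      rw [h1 l (fun h' => hl (Fin.succ_injective _ (h'.trans hk.symm))), mul_zero]
    rw [h3] at h2
    exact (mul_eq_zero.1 h2.symm).resolve_left (hw k)
  · exact h1 k hk

theorem swap_prod {n : ℕ} (g : Fin (n + 1) → ℝ) (i0 : Fin (n + 1)) :
    (∏ k : Fin n, if k.succ = i0 then g 0 else g k.succ) * g i0 = ∏ i, g i := by
  rw [Fin.prod_univ_succ]
  refine Fin.cases ?_ (fun κ => ?_) i0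
  · have h : ∏ k : Fin n, (if k.succ = 0 then g 0 else g k.succ) = ∏ k : Fin n, g k.succ :=
      Finset.prod_congr rfl fun k _ => if_neg (Fin.succ_ne_zero k)
    rw [h, mul_comm]
  · rw [← Finset.mul_prod_erase univ
      (fun k : Fin n => if k.succ = κ.succ then g 0 else g k.succ) (Finset.mem_univ κ),
      ← Finset.mul_prod_erase univ (fun k : Fin n => g k.succ) (Finset.mem_univ κ), if_pos rfl]
    have h : ∏ k ∈ univ.erase κ, (if k.succ = κ.succ then g 0 else g k.succ) =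
        ∏ k ∈ univ.erase κ, g k.succ := by
      refine Finset.prod_congr rfl fun k hk => if_neg fun h => ?_
      exact Finset.ne_of_mem_erase hk (Fin.succ_injective _ h)
    rw [h]
    ring

/-- a product of factors at least `1` -/
theorem le_prod_of {α : Type} (T : Finset α) (f : α → ℝ) (h : ∀ x ∈ T, 1 ≤ f x) {x : α}
    (hx : x ∈ T) : f x ≤ ∏ y ∈ T, f y := by
  classical
  rw [← Finset.mul_prod_erase T f hx]
  have h1 : (1 : ℝ) ≤ ∏ y ∈ T.erase x, f y := by
    rw [← Finset.prod_const_one (s := T.erase x)]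
    exact Finset.prod_le_prod (fun _ _ => zero_le_one) fun y hy => h y (Finset.mem_of_mem_erase hy)
  calc f x = f x * 1 := (mul_one _).symm
    _ ≤ _ := mul_le_mul_of_nonneg_left h1 (zero_le_one.trans (h x hx))

theorem one_le_prod_of {α : Type} (T : Finset α) (f : α → ℝ) (h : ∀ x ∈ T, 1 ≤ f x) :
    1 ≤ ∏ y ∈ T, f y := by
  rw [← Finset.prod_const_one (s := T)]
  exact Finset.prod_le_prod (fun _ _ => zero_le_one) h

/-- RELK -/
theorem RELK (hPFX : ST_PFX) (hSVB : ST_SVB) (hPRK : ST_PRK) (hDEN : ST_DEN)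
    (hSUBTK : ST_SUBTK) : ST_RELK := by
  classical
  intro M _ _ _ S ι0 _ _ a0 M0 u0 hSp hne0 ha0 hM0 hu0 hsum0
  obtain ⟨P⟩ := hPFX M S hSp
  obtain ⟨-, -, -, -, sv1, svm, svi, -, -, -, -, -⟩ := hSVB M
  obtain ⟨-, pr2, -⟩ := hPRK M S P hSp
  obtain ⟨den1, den2⟩ := hDEN M S P hSp
  obtain ⟨am, ham⟩ : ∃ am : ∀ m : ℕ, (Fin (m + 1) → ℝ) → Fin (m + 1),
      ∀ (m : ℕ) (g : Fin (m + 1) → ℝ) (i : Fin (m + 1)), g i ≤ g (am m g) := by
    have h : ∀ (m : ℕ) (g : Fin (m + 1) → ℝ), ∃ i0, ∀ i, g i ≤ g i0 := fun m g => by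
      obtain ⟨i0, -, h⟩ := Finset.exists_max_image (univ : Finset (Fin (m + 1))) g
        ⟨0, Finset.mem_univ _⟩
      exact ⟨i0, fun i => h i (Finset.mem_univ _)⟩
    choose am h using h
    exact ⟨am, h⟩
  have key : ∀ N : ℕ, ∀ (ι : Type) [Fintype ι] [DecidableEq ι], Fintype.card ι = N →
      ∀ (a : ι → M) (M1 : Set ℕ) (u : ℕ → ι → M), Nonempty ι → (∀ i, a i ≠ 0) → M1.Infinite →
      (∀ j ∈ M1, ∀ i, SV S (u j i)) → (∀ j ∈ M1, ∑ i, a i * u j i = 0) →
      ∃ (i i' : ι) (M' : Set ℕ) (ρ : M), i ≠ i' ∧ M' ⊆ M1 ∧ M'.Infinite ∧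
        ∀ j ∈ M', u j i = ρ * u j i' := by
    intro N
    induction N using Nat.strong_induction_on with
    | _ N ih =>
    intro ι _ _ hN a M1 u hne ha hM hu hsum
    obtain ⟨n, rfl⟩ : ∃ n, N = n + 1 :=
      Nat.exists_eq_succ_of_ne_zero (by rw [← hN]; exact Fintype.card_ne_zero)
    obtain ⟨e⟩ : Nonempty (Fin (n + 1) ≃ ι) := ⟨(Fintype.equivFinOfCardEq hN).symm⟩
    have hs : ∀ j ∈ M1, a (e 0) * u j (e 0) +
        ∑ k : Fin n, a (e k.succ) * u j (e k.succ) = 0 := by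
      intro j hj
      have h1 := hsum j hj
      rw [← Equiv.sum_comp e, Fin.sum_univ_succ] at h1
      exact h1
    rcases Nat.eq_zero_or_pos n with hn | hn0
    · -- one term
      subst hn
      obtain ⟨j, hj⟩ := hM.nonempty
      have h1 := hs j hj
      rw [Fin.sum_univ_zero, add_zero] at h1
      exact absurd h1 (mul_ne_zero (ha _) (hu j hj _).1)
    -- the quotients
    obtain ⟨y, hy⟩ : ∃ y : ℕ → Fin n → M, ∀ j k, y j k = u j (e k.succ) * (u j (e 0))⁻¹ :=
      ⟨fun j k => u j (e k.succ) * (u j (e 0))⁻¹, fun _ _ => rfl⟩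
    have hyS : ∀ j ∈ M1, ∀ k, SV S (y j k) := fun j hj k => by
      rw [hy]
      exact svm _ _ _ (hu j hj _) (svi _ _ (hu j hj _))
    have huy : ∀ j ∈ M1, ∀ k, u j (e k.succ) = y j k * u j (e 0) := fun j hj k => by
      rw [hy, mul_assoc, inv_mul_cancel₀ (hu j hj _).1, mul_one]
    obtain ⟨w, hw⟩ : ∃ w : Fin n → M, ∀ k, w k = -(a (e k.succ) / a (e 0)) := ⟨_, fun _ => rfl⟩
    have hw0 : ∀ k, w k ≠ 0 := fun k => by
      rw [hw]
      exact neg_ne_zero.2 (div_ne_zero (ha _) (ha _))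
    have hw1 : ∀ j ∈ M1, ∑ l, w l * y j l = 1 := by
      intro j hj
      have h1 := hs j hj
      have h2 : ∑ k : Fin n, a (e k.succ) * u j (e k.succ) =
          -(a (e 0) * u j (e 0)) * ∑ l, w l * y j l := by
        rw [Finset.mul_sum]
        refine Finset.sum_congr rfl fun k _ => ?_
        rw [huy j hj, hw]
        have := ha (e 0)
        field_simp
      rw [h2] at h1
      have h3 : a (e 0) * u j (e 0) ≠ 0 := mul_ne_zero (ha _) (hu j hj _).1
      have h4 : a (e 0) * u j (e 0) * (1 - ∑ l, w l * y j l) = 0 := by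
        rw [← h1]
        ring
      exact (sub_eq_zero.1 ((mul_eq_zero.1 h4).resolve_left h3)).symm
    -- the vector with the entry `1`
    obtain ⟨Y, hY⟩ : ∃ Y : ℕ → Fin (n + 1) → M, ∀ j, Y j = Fin.cons 1 (y j) := ⟨_, fun _ => rfl⟩
    have hY0 : ∀ j, Y j 0 = 1 := fun j => by rw [hY]; rfl
    have hY1 : ∀ j k, Y j k.succ = y j k := fun j k => by rw [hY]; rfl
    have hYS : ∀ j ∈ M1, ∀ i, SV S (Y j i) := fun j hj i => by
      refine Fin.cases ?_ (fun k => ?_) i
      · rw [hY0]; exact sv1 S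
      · rw [hY1]; exact hyS j hj k
    obtain ⟨κ, hκ⟩ : ∃ κ : ℕ → Option ℕ → (M ≃ₐ[ℚ] M) → Fin (n + 1),
        ∀ j v σ, κ j v σ = am n (fun i => P.nv v (σ (Y j i))) := ⟨_, fun _ _ _ => rfl⟩
    have hκm : ∀ (j : ℕ) (v : Option ℕ) (σ : M ≃ₐ[ℚ] M) (i : Fin (n + 1)),
        P.nv v (σ (Y j i)) ≤ P.nv v (σ (Y j (κ j v σ))) := fun j v σ i => by
      rw [hκ]
      exact ham n (fun i => P.nv v (σ (Y j i))) i
    have hmx1 : ∀ (j : ℕ), ∀ v ∈ plc S, ∀ σ : M ≃ₐ[ℚ] M, 1 ≤ P.nv v (σ (Y j (κ j v σ))) :=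
      fun j v hv σ => by
      have h1 := hκm j v σ 0
      rwa [hY0, map_one, P.one hv] at h1
    obtain ⟨R, hR⟩ : ∃ R : ℕ → ℝ, ∀ j, R j = ∏ v ∈ plc S, ∏ σ : M ≃ₐ[ℚ] M,
        P.nv v (σ (Y j (κ j v σ))) := ⟨_, fun _ => rfl⟩
    have hR1 : ∀ j, 1 ≤ R j := fun j => by
      rw [hR]
      exact one_le_prod_of _ _ fun v hv => one_le_prod_of _ _ fun σ _ => hmx1 j v hv σ
    have hyR : ∀ j, ∀ v ∈ plc S, ∀ σ : M ≃ₐ[ℚ] M, ∀ k, P.nv v (σ (y j k)) ≤ R j :=
      fun j v hv σ k => by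
      have h1 := hκm j v σ k.succ
      rw [hY1] at h1
      refine h1.trans ?_
      rw [hR]
      have h2 : P.nv v (σ (Y j (κ j v σ))) ≤ ∏ σ : M ≃ₐ[ℚ] M, P.nv v (σ (Y j (κ j v σ))) :=
        le_prod_of univ (fun σ : M ≃ₐ[ℚ] M => P.nv v (σ (Y j (κ j v σ))))
          (fun σ _ => hmx1 j v hv σ) (Finset.mem_univ σ)
      exact h2.trans (le_prod_of (plc S)
        (fun v => ∏ σ : M ≃ₐ[ℚ] M, P.nv v (σ (Y j (κ j v σ))))
        (fun v hv => one_le_prod_of _ _ fun σ _ => hmx1 j v hv σ) hv)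
    by_cases hb : ∃ B : ℝ, {j | j ∈ M1 ∧ R j ≤ B}.Infinite
    · -- bounded heights
      obtain ⟨B, hB⟩ := hb
      obtain ⟨z, -, hz⟩ := pig hB y {f | ∀ _i : Fin n, f _i ∈ {z : M | SI S z ∧ HB P B z}}
        (Set.Finite.pi' fun _ => den2 B) (fun j hj k =>
          ⟨(hyS j hj.1 k).2.1, fun v hv σ => (hyR j v hv σ k).trans hj.2⟩)
      refine ⟨e (Fin.succ ⟨0, hn0⟩), e 0, {j | j ∈ {j | j ∈ M1 ∧ R j ≤ B} ∧ y j = z},
        z ⟨0, hn0⟩, ?_, fun j hj => hj.1.1, hz, fun j hj => ?_⟩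
      · intro h
        exact Fin.succ_ne_zero _ (e.injective h)
      · rw [huy j hj.1.1, hj.2]
    -- unbounded heights
    push Not at hb
    obtain ⟨κ1, -, hκ1⟩ := pig hM (fun j => fun x : {v // v ∈ plc S} × (M ≃ₐ[ℚ] M) =>
      κ j x.1.1 x.2) Set.univ Set.finite_univ fun _ _ => Set.mem_univ _
    obtain ⟨j0, hj0⟩ := hκ1.nonempty
    obtain ⟨pS, hpS⟩ : ∃ pS : ℝ, pS = ∏ p ∈ S, (p : ℝ) := ⟨_, rfl⟩
    have hpS0 : 0 ≤ pS := by
      rw [hpS]
      exact Finset.prod_nonneg fun p _ => Nat.cast_nonneg p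
    obtain ⟨M2, hM2⟩ : ∃ M2 : Set ℕ, M2 =
        {j | j ∈ M1 ∧ (fun x : {v // v ∈ plc S} × (M ≃ₐ[ℚ] M) => κ j x.1.1 x.2) = κ1} \
          {j | j ∈ M1 ∧ R j ≤ pS} := ⟨_, rfl⟩
    have hM2i : M2.Infinite := by
      rw [hM2]
      exact hκ1.sdiff (hb _)
    have hM2M : ∀ j ∈ M2, j ∈ M1 := fun j hj => by
      rw [hM2] at hj
      exact hj.1.1
    have hM2κ : ∀ j ∈ M2, ∀ v ∈ plc S, ∀ σ, κ j v σ = κ j0 v σ := fun j hj v hv σ => by
      rw [hM2] at hj
      have h1 := congrFun (hj.1.2.trans hj0.2.symm) (⟨v, hv⟩, σ)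
      exact h1
    have hM2R : ∀ j ∈ M2, pS < R j := fun j hj => by
      by_contra h
      have hj' := hj
      rw [hM2] at hj'
      exact hj'.2 ⟨hM2M j hj, not_lt.1 h⟩
    have hcon : Con P (fun v σ => frK (κ j0 v σ) w) := by
      intro v _ σ σ' h
      have h1 : κ j0 v σ = κ j0 v σ' := by
        rw [hκ, hκ]
        have h2 : (fun i => P.nv v (σ (Y j0 i))) = fun i => P.nv v (σ' (Y j0 i)) :=
          funext fun i => h _
        rw [h2]
      show frK (κ j0 v σ) w = frK (κ j0 v σ') w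
      rw [h1]
    obtain ⟨b, hb0, hbi⟩ := hSUBTK M S P n (fun v σ => frK (κ j0 v σ) w) 1
      ((S.card : ℝ) + 1) M2 R y hn0 hSp (fun v _ σ => frK_det _ _ hw0) hcon one_pos
      (by positivity) hM2i (fun B => (hb B).subset fun j hj => ⟨hM2M j hj.1, hj.2⟩)
      (by
        intro j hj
        have hjM := hM2M j hj
        have hRj := hR1 j
        refine ⟨hRj, ?_, fun σ i => ?_, ?_⟩
        · obtain ⟨m, hm1, hm2, hm3⟩ := den1 (R j) hRj
          refine ⟨m, hm1, hm2.trans ?_, fun i => hm3 _ (hyS j hjM i).2.1 fun p hp σ =>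
            hyR j _ (mem_some hp) σ i⟩
          rw [← hpS]
          have h1 : R j ^ ((S.card : ℝ) + 1) = R j * R j ^ S.card := by
            have h2 : ((S.card : ℝ) + 1) = ((S.card + 1 : ℕ) : ℝ) := by push_cast; ring
            rw [h2, Real.rpow_natCast, pow_succ, mul_comm]
          rw [h1]
          exact mul_le_mul_of_nonneg_right (hM2R j hj).le (by positivity)
        · refine (hyR j none mem_none σ i).trans ?_
          nth_rewrite 1 [← Real.rpow_one (R j)]
          exact Real.rpow_le_rpow_of_exponent_le hRj (by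
            have : (0 : ℝ) ≤ S.card := Nat.cast_nonneg _
            linarith)
        · obtain ⟨Q, hQ⟩ : ∃ Q : ℝ, Q = ∏ v ∈ plc S, ∏ σ : M ≃ₐ[ℚ] M, ∏ i,
            P.nv v (σ ((frK (κ j0 v σ) w).mulVec (y j) i)) := ⟨_, rfl⟩
          have h1 : Q * R j = 1 := by
            rw [hQ, hR, ← Finset.prod_mul_distrib]
            have h2 : ∀ v ∈ plc S, (∏ σ : M ≃ₐ[ℚ] M, ∏ i,
                P.nv v (σ ((frK (κ j0 v σ) w).mulVec (y j) i))) *
                (∏ σ : M ≃ₐ[ℚ] M, P.nv v (σ (Y j (κ j v σ)))) =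
                ∏ σ : M ≃ₐ[ℚ] M, ∏ i, P.nv v (σ (Y j i)) := by
              intro v hv
              rw [← Finset.prod_mul_distrib]
              refine Finset.prod_congr rfl fun σ _ => ?_
              rw [hM2κ j hj v hv, ← swap_prod (fun i => P.nv v (σ (Y j i))) (κ j0 v σ)]
              refine congrArg (· * P.nv v (σ (Y j (κ j0 v σ)))) ?_
              refine Finset.prod_congr rfl fun k _ => ?_
              rw [frK_mul, hw1 j hjM]
              split_ifs with h
              · rw [hY0]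
              · rw [hY1]
            rw [Finset.prod_congr rfl h2]
            have h3 : ∏ v ∈ plc S, ∏ σ : M ≃ₐ[ℚ] M, ∏ i, P.nv v (σ (Y j i)) =
                ∏ i, ∏ v ∈ plc S, ∏ σ : M ≃ₐ[ℚ] M, P.nv v (σ (Y j i)) := by
              rw [Finset.prod_comm' (s := univ) (t := fun _ => plc S) (t' := plc S)
                (s' := fun _ => univ) (by intros; simp)]
              refine Finset.prod_congr rfl fun v _ => ?_
              rw [Finset.prod_comm]
            rw [h3]
            exact Finset.prod_eq_one fun i _ => pr2 _ (hYS j hjM i)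
          show _ ≤ R j ^ (-(1 : ℝ))
          rw [← hQ, Real.rpow_neg_one]
          exact (eq_inv_of_mul_eq_one_left h1).le)
    obtain ⟨i, i', M', ρ, h1, h2, h3, h4⟩ := ih (Fintype.card {k : Fin n // b k ≠ 0})
      (lt_of_le_of_lt ((Fintype.card_subtype_le _).trans (by simp)) (Nat.lt_succ_self n))
      {k : Fin n // b k ≠ 0} rfl (fun k => b k.1)
      {j | j ∈ M2 ∧ ∑ k, b k * y j k = 0} (fun j k => u j (e k.1.succ))
      (by
        by_contra h
        apply hb0
        funext k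
        by_contra hk
        exact h ⟨⟨k, hk⟩⟩) (fun k => k.2) hbi (fun j hj k => hu j (hM2M j hj.1) _)
      (by
        intro j hj
        have h1 : ∑ k : {k : Fin n // b k ≠ 0}, b k.1 * u j (e k.1.succ) =
            ∑ k : Fin n, b k * u j (e k.succ) := by
          rw [← Finset.sum_filter_of_ne (s := univ) (p := fun k => b k ≠ 0)
            (f := fun k : Fin n => b k * u j (e k.succ)) (fun k _ hk h => hk (by
              show b k * u j (e k.succ) = 0
              rw [h, zero_mul]))]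
          exact (Finset.sum_subtype (univ.filter fun k => b k ≠ 0) (fun k => by simp)
            (fun k : Fin n => b k * u j (e k.succ))).symm
        rw [h1]
        have h2 : ∑ k : Fin n, b k * u j (e k.succ) = (∑ k : Fin n, b k * y j k) * u j (e 0) := by
          rw [Finset.sum_mul]
          refine Finset.sum_congr rfl fun k _ => ?_
          rw [huy j (hM2M j hj.1)]
          ring
        rw [h2, hj.2, zero_mul])
    refine ⟨e i.1.succ, e i'.1.succ, M', ρ, fun h => h1 ?_, fun j hj => hM2M j (h2 hj).1, h3,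
      h4⟩
    exact Subtype.ext (Fin.succ_injective _ (e.injective h))
  exact key _ ι0 rfl a0 M0 u0 hne0 ha0 hM0 hu0 hsum0

end Pool.Agent.Helper89.SUBK
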